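import Mathlib
import Pool.Agent.Helper99.FfiidDefs
import Pool.Agent.Helper99.FfiidProof

set_option autoImplicit false

open MeasureTheory ProbabilityTheory Filter
open Pool.Agent.Helper99.FfiidColouring

/-!
# Finitely dependent colourings with superexponentially small coding radius

Construction on `ℤ`.  Let `U` be i.i.d. uniform on `[0,1]`.  The strict local maxima of `U` get the
colour `0`; they are never adjacent.  To every site an independent word is attached whose law is the
one-sided stationary `1`-dependent `4`-colouring law of Holroyd and Liggett, and the sites following
a strict local maximum (until the next one) are coloured by the word attached to that maximum.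
Given `U`, the colours are `1`-dependent, and their conditional law on a set of sites only depends on
which of these sites are local maxima.  So the colouring is `2`-dependent.  The coding radius at the
origin is at most one plus the distance to the last local maximum, whose tail is `2 / (r / 2)!`.
On `ℤ^d` one takes products over the `d` families of coordinate lines.
-/

namespace Pool.Agent.Results.MP_9e03f2_pr.SuperexpColouring

/-- For every `d ≥ 1` there is a `2`-dependent `5 ^ d`-colouring of `ℤ^d` which is a finitary factor
of an i.i.d. process and whose coding radius `R` satisfies `(1 / r) log P(R > r) → -∞`. -/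
theorem result (d : ℕ) (_hd : 1 ≤ d) :
    ∃ (S : Type) (_ : MeasurableSpace S) (ν : Measure S)
      (F : ((Fin d → ℤ) → S) → (Fin d → ℤ) → Fin (5 ^ d)),
      IsProbabilityMeasure ν ∧ Measurable F ∧ CommutesWithTranslations F ∧
      IsColouring (iidLaw d ν) F ∧ IsDependent 2 (iidLaw d ν) F ∧
      (∀ᵐ y ∂(iidLaw d ν), codingRadius F y ≠ ⊤) ∧
      Tendsto (fun r : ℕ =>
        ENNReal.log (iidLaw d ν {y | (r : ℕ∞) < codingRadius F y}) / (r : EReal))
        atTop (nhds ⊥) :=
  ⟨Fin d → Site, inferInstance, nud d, Fd d, nud_prob d, measurable_Fd d, Fd_shift d,
    Fd_colouring d, Fd_dependent d, ae_finite d, tail_limit d⟩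

end Pool.Agent.Results.MP_9e03f2_pr.SuperexpColouring
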